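import Mathlib

set_option autoImplicit false

namespace Pool.Agent.H.MP_0b1547_co

open MvPolynomial

variable {α : Type} [Fintype α]

/-- Building set on the lattice of flats. -/
def IsBuilding (M : Matroid α) (G : Set (Set α)) : Prop :=
  (∀ Y ∈ G, M.IsFlat Y ∧ Y ≠ ∅) ∧ ∀ F, M.IsFlat F → F ≠ ∅ →
    ∃ e : (∀ Y : {Y // Maximal (fun Z => Z ∈ G ∧ Z ⊆ F) Y}, {H : Set α // M.IsFlat H ∧ H ⊆ Y.1}) ≃o
        {H : Set α // M.IsFlat H ∧ H ⊆ F},
      ∀ H, (e H).1 = M.closure (⋃ Y, (H Y).1)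

/-- Nested subsets of a building set. -/
def Nested (M : Matroid α) (G : Set (Set α)) (S : Finset G) : Prop :=
  ∀ T ⊆ S, 2 ≤ T.card → IsAntichain (· ≤ ·) (T : Set G) → M.closure (⋃ Y ∈ T, Y.1) ∉ G

open Classical in
/-- Defining relations of the Chow ring. -/
def rels (M : Matroid α) (G : Set (Set α)) : Set (MvPolynomial G ℚ) :=
  {p | ∃ S : Finset G, ¬ Nested M G S ∧ p = ∏ Y ∈ S, X Y} ∪
  {p | ∃ a, Minimal (fun F => M.IsFlat F ∧ F ≠ ∅) a ∧ p = ∑ Y : G with a ⊆ Y.1, X Y}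

/-- The Chow ring. -/
abbrev Chow (M : Matroid α) (G : Set (Set α)) := MvPolynomial G ℚ ⧸ Ideal.span (rels M G)

/-- The graded piece of degree `i`. -/
noncomputable def piece (M : Matroid α) (G : Set (Set α)) (i : ℕ) : Submodule ℚ (Chow M G) :=
  (homogeneousSubmodule G ℚ i).map (Ideal.Quotient.mkₐ ℚ (Ideal.span (rels M G))).toLinearMap

/-- The quotient of `A` by the ideal generated by `L` has a free resolution of finite type
all of whose matrices have entries in `L`. -/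
def Koszul (A : Type) [CommRing A] (L : Set A) : Prop :=
  ∃ (b : ℕ → ℕ) (y : Fin (b 0) → A) (d : ∀ i, Matrix (Fin (b (i + 1))) (Fin (b i)) A),
    (∀ j, y j ∈ L) ∧ (∀ i j k, d i j k ∈ L) ∧ Ideal.span (Set.range y) = Ideal.span L ∧
    Function.Exact (d 0).vecMulLinear (Fintype.linearCombination A y) ∧
    ∀ i, Function.Exact (d (i + 1)).vecMulLinear (d i).vecMulLinear

end Pool.Agent.H.MP_0b1547_co
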