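import Mathlib
import Pool.Agent.H.MP_0b1547_co.Defs

set_option autoImplicit false

namespace Pool.Agent.H.MP_0b1547_co

open Submodule

variable {A : Type} [CommRing A]

/-- Families with successive quotients in the class `F`. -/
def LQ (F : Set (Ideal A)) {M : Type} [AddCommGroup M] [Module A M] : (k : ℕ) → (Fin k → M) → Prop
  | 0, _ => True
  | k + 1, v => LQ F k (Fin.tail v) ∧
      ∃ I ∈ F, ∀ a : A, a • v 0 ∈ span A (Set.range (Fin.tail v)) ↔ a ∈ I

lemma LQ_map (F : Set (Ideal A)) {M N : Type} [AddCommGroup M] [Module A M] [AddCommGroup N]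
    [Module A N] (f : M →ₗ[A] N) (hf : Function.Injective f) :
    ∀ (k : ℕ) (v : Fin k → M), LQ F k v → LQ F k (f ∘ v)
  | 0, _, _ => trivial
  | k + 1, v, ⟨h1, I, hI, h2⟩ => by
    refine ⟨LQ_map F f hf k _ h1, I, hI, fun a => ?_⟩
    rw [← h2 a]
    have : Set.range (Fin.tail (f ∘ v)) = f '' Set.range (Fin.tail v) := by
      rw [← Set.range_comp]; rfl
    rw [this, ← Submodule.map_span, Function.comp_apply, ← map_smul]
    constructor
    · rintro ⟨x, hx, e⟩
      rwa [← hf e]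
    · intro h; exact ⟨_, h, rfl⟩

/-- Prepending a zero coordinate. -/
def c0 (k : ℕ) : (Fin k → A) →ₗ[A] (Fin (k + 1) → A) where
  toFun s := Fin.cons 0 s
  map_add' := by intro a b; funext i; refine Fin.cases ?_ (fun j => ?_) i <;> simp
  map_smul' := by intro a b; funext i; refine Fin.cases ?_ (fun j => ?_) i <;> simp

lemma syz (F : Set (Ideal A)) (L : Set A) (L0 : (0 : A) ∈ L) (Ln : ∀ a ∈ L, -a ∈ L)
    (hF : ∀ I ∈ F, ∃ (r : ℕ) (y : Fin r → A), (∀ j, y j ∈ L) ∧ LQ F r y ∧ span A (Set.range y) = I)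
    {M : Type} [AddCommGroup M] [Module A M] (lin : M → Prop)
    (hG : ∀ (k : ℕ) (v : Fin k → M) (u : M) (x : A) (a : Fin k → A), x ∈ L → lin u → (∀ l, lin (v l)) →
      x • u = ∑ l, a l • v l → ∃ a' : Fin k → A, (∀ l, a' l ∈ L) ∧ x • u = ∑ l, a' l • v l) :
    ∀ (k : ℕ) (v : Fin k → M), (∀ l, lin (v l)) → LQ F k v →
      ∃ (k' : ℕ) (w : Fin k' → Fin k → A), (∀ j l, w j l ∈ L) ∧ LQ F k' w ∧
        ∀ s, s ∈ span A (Set.range w) ↔ ∑ l, s l • v l = 0
  | 0, v, _, _ => ⟨0, Fin.elim0, fun j => j.elim0, trivial, fun s => by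
      simp [Subsingleton.elim s 0]⟩
  | k + 1, v, hv, ⟨h1, I, hI, h2⟩ => by
    obtain ⟨k', w, w1, w2, w3⟩ := syz F L L0 Ln hF lin hG k (Fin.tail v) (fun l => hv _) h1
    obtain ⟨r, y, y1, y2, y3⟩ := hF I hI
    have key : ∀ (r : ℕ) (y : Fin r → A), (∀ j, y j ∈ L) → LQ F r y → (∀ j, y j ∈ I) →
        ∃ (k' : ℕ) (w : Fin k' → Fin (k + 1) → A), (∀ j l, w j l ∈ L) ∧ LQ F k' w ∧
          ∀ s, s ∈ span A (Set.range w) ↔ ∑ l, s l • v l = 0 ∧ s 0 ∈ span A (Set.range y) := by
      intro r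
      induction r with
      | zero =>
        intro y _ _ _
        refine ⟨k', c0 k ∘ w, fun j l => ?_, LQ_map F _ (fun a b e => ?_) _ _ w2, fun s => ?_⟩
        · refine Fin.cases ?_ (fun i => ?_) l
          · exact L0
          · exact w1 j i
        · funext i; simpa [c0] using congrFun e i.succ
        · rw [Set.range_comp, ← Submodule.map_span]
          simp only [Set.range_eq_empty, span_empty, mem_bot, Fin.sum_univ_succ]
          constructor
          · rintro ⟨t, ht, rfl⟩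
            have := (w3 t).1 ht
            simpa [c0, Fin.tail] using this
          · rintro ⟨e1, e2⟩
            refine ⟨Fin.tail s, (w3 _).2 ?_, ?_⟩
            · simpa [e2, Fin.tail] using e1
            · funext i; refine Fin.cases ?_ (fun j => ?_) i <;> simp [c0, e2, Fin.tail]
      | succ r ih =>
        rintro y y1 ⟨y2, J, hJ, y3⟩ y4
        obtain ⟨k2, w', u1, u2, u3⟩ := ih (Fin.tail y) (fun j => y1 _) y2 (fun j => y4 _)
        obtain ⟨a, ha⟩ := (mem_span_range_iff_exists_fun A).1 ((h2 (y 0)).2 (y4 0))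
        obtain ⟨a', b1, b2⟩ := hG k (Fin.tail v) (v 0) (y 0) a (y1 0) (hv 0) (fun l => hv _) ha.symm
        set z : Fin (k + 1) → A := Fin.cons (y 0) (fun l => -a' l) with hz
        have z0 : z 0 = y 0 := rfl
        have zk : ∑ l, z l • v l = 0 := by
          rw [Fin.sum_univ_succ, z0, b2, ← Finset.sum_add_distrib]
          simp [hz, Fin.tail]
        have zk' : ∀ c : A, ∑ l, (c • z) l • v l = 0 := by
          intro c
          simp only [Pi.smul_apply, smul_eq_mul, mul_smul, ← Finset.smul_sum, zk, smul_zero]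
        refine ⟨k2 + 1, Fin.cons z w', fun j l => ?_, ⟨by simpa using u2, J, hJ, fun c => ?_⟩,
          fun s => ?_⟩
        · refine Fin.cases ?_ (fun i => ?_) j
          · refine Fin.cases ?_ (fun i => ?_) l
            · exact y1 0
            · exact Ln _ (b1 i)
          · exact u1 i l
        · rw [Fin.tail_cons, Fin.cons_zero, u3, ← y3 c]
          simp only [zk', true_and]
          rfl
        · have ey : Set.range y = insert (y 0) (Set.range (Fin.tail y)) := by
            conv_lhs => rw [← Fin.cons_self_tail y]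
            exact Fin.range_cons _ _
          rw [Fin.range_cons, mem_span_insert, ey, mem_span_insert]
          constructor
          · rintro ⟨c, t, ht, rfl⟩
            obtain ⟨t1, t2⟩ := (u3 t).1 ht
            refine ⟨?_, c, t 0, t2, rfl⟩
            simp only [Pi.add_apply, add_smul, Finset.sum_add_distrib, zk', t1, add_zero]
          · rintro ⟨e1, c, t, ht, e2⟩
            refine ⟨c, s - c • z, (u3 _).2 ⟨?_, ?_⟩, by abel⟩
            · simp only [Pi.sub_apply, sub_smul, Finset.sum_sub_distrib, zk', e1, sub_zero]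
            · have : (s - c • z) 0 = t := by
                rw [Pi.sub_apply, e2, Pi.smul_apply, z0]; abel
              rwa [this]
    obtain ⟨k2, w', u1, u2, u3⟩ := key r y y1 y2 (fun j => y3 ▸ subset_span ⟨j, rfl⟩)
    refine ⟨k2, w', u1, u2, fun s => ?_⟩
    rw [u3, y3]
    refine ⟨fun h => h.1, fun h => ⟨h, (h2 _).1 ?_⟩⟩
    rw [Fin.sum_univ_succ] at h
    rw [eq_neg_of_add_eq_zero_left h]
    exact neg_mem (sum_mem fun l _ => smul_mem _ _ (subset_span ⟨l, rfl⟩))

theorem koszul_of (F : Set (Ideal A)) (L : Set A) (L0 : (0 : A) ∈ L) (Ln : ∀ a ∈ L, -a ∈ L)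
    (hF : ∀ I ∈ F, ∃ (r : ℕ) (y : Fin r → A), (∀ j, y j ∈ L) ∧ LQ F r y ∧ span A (Set.range y) = I)
    (hm : Ideal.span L ∈ F) (π : A → A) (hπ : ∀ a, π a ∈ L)
    (hG : ∀ (k : ℕ) (v : Fin k → A) (u x : A) (a : Fin k → A), x ∈ L → u ∈ L → (∀ l, v l ∈ L) →
      x * u = ∑ l, a l * v l → x * u = ∑ l, π (a l) * v l) : Koszul A L := by
  obtain ⟨r, y, y1, y2, y3⟩ := hF _ hm
  obtain ⟨k', w, w1, w2, w3⟩ := syz F L L0 Ln hF (M := A) (· ∈ L)
    (fun k v u x a hx hu hv e => ⟨fun l => π (a l), fun l => hπ _, hG k v u x a hx hu hv e⟩) r y y1 y2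
  let St := Σ n k : ℕ, {v : Fin k → Fin n → A // (∀ j l, v j l ∈ L) ∧ LQ F k v}
  have step : ∀ s : St, ∃ (k' : ℕ) (w : Fin k' → Fin s.2.1 → A), (∀ j l, w j l ∈ L) ∧ LQ F k' w ∧
      ∀ t, t ∈ span A (Set.range w) ↔ ∑ l, t l • s.2.2.1 l = 0 := fun s =>
    syz F L L0 Ln hF (M := Fin s.1 → A) (fun u => ∀ c, u c ∈ L)
      (fun k v u x a hx hu hv e => ⟨fun l => π (a l), fun l => hπ _, by
        funext c
        have := congrFun e c
        simp only [Finset.sum_apply, Pi.smul_apply, smul_eq_mul] at this ⊢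
        exact hG k (fun l => v l c) (u c) x a hx (hu c) (fun l => hv l c) this⟩)
      s.2.1 s.2.2.1 s.2.2.2.1 s.2.2.2.2
  choose nk nw h1 h2 h3 using step
  let nx : St → St := fun s => ⟨s.2.1, nk s, nw s, h1 s, h2 s⟩
  let sq : ℕ → St := fun i => Nat.rec ⟨r, k', w, w1, w2⟩ (fun _ s => nx s) i
  have ex : ∀ {n k : ℕ} (v : Fin k → Fin n → A) (t : Fin n → A),
      t ∈ span A (Set.range v) ↔ t ∈ Set.range (Matrix.of v).vecMulLinear := by
    intro n k v t
    rw [mem_span_range_iff_exists_fun]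
    refine exists_congr fun c => ?_
    rw [Matrix.vecMulLinear_apply, Matrix.vecMul_eq_sum]
    rfl
  refine ⟨fun i => (sq i).1, y, fun i => Matrix.of (sq i).2.2.1, y1, fun i => (sq i).2.2.2.1, y3,
    fun t => ?_, fun i t => ?_⟩
  · rw [Fintype.linearCombination_apply]
    exact (w3 t).symm.trans (ex w t)
  · rw [Matrix.vecMulLinear_apply, Matrix.vecMul_eq_sum]
    exact (h3 (sq i) t).symm.trans (ex (nw (sq i)) t)

end Pool.Agent.H.MP_0b1547_co
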