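import Mathlib
import Pool.Agent.H.MP_0b1547_co.K

set_option autoImplicit false

namespace Pool.Agent.H.MP_0b1547_co

open Submodule

def nb (i : ℕ) : ℕ := [195519, 253943, 229343, 260093, 261567, 245755, 262126, 251647, 212863, 195567,
  257534, 192375, 201727, 192381, 192223, 192251, 202238, 262143].getD i 0

def gm (i : ℕ) : ℕ := [1, 2, 4, 8, 16, 32, 64, 10, 36, 65, 80, 81, 46, 89, 91, 123, 126, 127].getD i 0

def am (a : ℕ) : ℕ := [190977, 249986, 200964, 258184, 257040, 233760, 257600].getD a 0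

def pr : List ℕ := [7, 1, 6, 2, 12, 16, 3, 11, 17, 14, 9, 15, 10, 8, 0, 4, 13, 5]

def leaf (U : ℕ) : Bool := (List.range 18).all fun X => !U.testBit X ||
  (List.range 7).any fun a => (am a).testBit X && (U &&& am a) % 2 ^ X == 0

def mons : ℕ → ℕ → Option (List (List ℕ))
  | 0, _ => none
  | f + 1, U =>
    match pr.find? (fun v => U.testBit v && (nb v &&& U) != U) with
    | none => if leaf U then some [[]] else none
    | some v =>
      match mons f (U ^^^ 2 ^ v), mons f (nb v &&& U) with
      | some l, some r => some (l ++ r.map (v :: ·))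
      | _, _ => none

variable {A : Type} [CommRing A] [Algebra ℚ A]

def J (x : ℕ → A) (U : ℕ) : Ideal A := Ideal.span (x '' {i | i < 18 ∧ U.testBit i = false})

structure Rel (x : ℕ → A) : Prop where
  r1 : ∀ i < 18, ∀ j < 18, (nb i).testBit j = false → x i * x j = 0
  r2 : ∀ a < 7, ∑ i ∈ Finset.range 18 with (am a).testBit i, x i = 0
  r3 : ∀ a : A, ∃ c : ℚ, a - c • 1 ∈ J x 0

omit [Algebra ℚ A] in
lemma J_mem (x : ℕ → A) {U i : ℕ} (h : i < 18) (h' : U.testBit i = false) : x i ∈ J x U :=
  Ideal.subset_span ⟨i, ⟨h, h'⟩, rfl⟩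

omit [Algebra ℚ A] in
lemma J_step (x : ℕ → A) {U W v : ℕ} (hv : v < 18) (h1 : U.testBit v = false)
    (h2 : ∀ i, i ≠ v → U.testBit i = W.testBit i) : J x U = Ideal.span {x v} ⊔ J x W := by
  apply le_antisymm
  · rw [J, Ideal.span_le]
    rintro _ ⟨i, ⟨a, b⟩, rfl⟩
    by_cases e : i = v
    · subst e; exact Ideal.mem_sup_left (Ideal.subset_span rfl)
    · exact Ideal.mem_sup_right (J_mem x a (h2 i e ▸ b))
  · refine sup_le ?_ ?_
    · rw [Ideal.span_le]; rintro _ rfl; exact J_mem x hv h1
    · rw [J, Ideal.span_le]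
      rintro _ ⟨i, ⟨a, b⟩, rfl⟩
      by_cases e : i = v
      · subst e; exact J_mem x hv h1
      · exact J_mem x a ((h2 i e).symm ▸ b)

lemma J_nb {x : ℕ → A} (h : Rel x) {U v : ℕ} (hv : v < 18) {a : A} (ha : a ∈ J x (nb v &&& U)) :
    a * x v ∈ J x U := by
  refine Submodule.span_induction (p := fun a _ => a * x v ∈ J x U) ?_ ?_ ?_ ?_ ha
  · rintro _ ⟨i, ⟨a, b⟩, rfl⟩
    rw [Nat.testBit_and, Bool.and_eq_false_iff] at b
    rcases b with b | b
    · rw [mul_comm, h.r1 v hv i a b]; exact zero_mem _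
    · exact Ideal.mul_mem_right _ _ (J_mem x a b)
  · simp
  · intro a b _ _ ha hb; rw [add_mul]; exact add_mem ha hb
  · intro c a _ ha; rw [smul_eq_mul, mul_assoc]; exact Ideal.mul_mem_left _ _ ha

lemma leaf_mem {x : ℕ → A} (h : Rel x) {U : ℕ} (hU : leaf U = true) :
    ∀ n X, X < 18 → 18 ≤ X + n → x X ∈ J x U := by
  intro n
  induction n with
  | zero => intro X a b; omega
  | succ n ih =>
    intro X a b
    simp only [leaf, List.all_eq_true, List.mem_range, Bool.or_eq_true, Bool.not_eq_true',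
      List.any_eq_true, Bool.and_eq_true, beq_iff_eq] at hU
    rcases hU X a with c | ⟨t, t7, c1, c2⟩
    · exact J_mem x a c
    · have e := h.r2 t t7
      have hX : X ∈ (Finset.range 18).filter (fun i => (am t).testBit i) := by simp [a, c1]
      rw [← Finset.add_sum_erase _ _ hX] at e
      rw [eq_neg_of_add_eq_zero_left e]
      refine neg_mem (sum_mem fun i hi => ?_)
      simp only [Finset.mem_erase, Finset.mem_filter, Finset.mem_range] at hi
      by_cases u : U.testBit i = true
      · have := Nat.testBit_mod_two_pow (U &&& am t) X i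
        rw [c2, Nat.zero_testBit, Nat.testBit_and, u, hi.2.2] at this
        simp at this
        exact ih i hi.2.1 (by omega)
      · exact J_mem x hi.2.1 (by simpa using u)

lemma leaf_le {x : ℕ → A} (h : Rel x) {U : ℕ} (hU : leaf U = true) : J x 0 ≤ J x U := by
  rw [J, Ideal.span_le]
  rintro _ ⟨i, ⟨a, _⟩, rfl⟩
  exact leaf_mem h hU 18 i a (by omega)

def mon (x : ℕ → A) (m : List ℕ) : A := (m.map x).prod

lemma mons_span {x : ℕ → A} (h : Rel x) : ∀ (f U : ℕ) (l : List (List ℕ)), mons f U = some l →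
    ∀ a : A, a ∈ (J x U).restrictScalars ℚ ⊔ span ℚ (mon x '' {m | m ∈ l}) := by
  intro f
  induction f with
  | zero => intro U l e; simp [mons] at e
  | succ f ih =>
    intro U l e a
    rw [mons] at e
    split at e
    · split_ifs at e with hl
      obtain rfl := Option.some.inj e
      obtain ⟨c, hc⟩ := h.r3 a
      have : a = (a - c • 1) + c • 1 := by abel
      rw [this]
      refine add_mem (mem_sup_left (leaf_le h hl hc)) (mem_sup_right (smul_mem _ _ (subset_span ?_)))
      exact ⟨[], by simp, rfl⟩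
    · rename_i v hv
      have v18 : v < 18 := (by decide : ∀ v ∈ pr, v < 18) v (List.mem_of_find?_eq_some hv)
      have vU : U.testBit v = true := by
        have := List.find?_some hv
        simp only [Bool.and_eq_true] at this
        exact this.1
      split at e
      · rename_i l1 r1 e1 e2
        obtain rfl := Option.some.inj e
        obtain ⟨j, hj, s, hs, rfl⟩ := mem_sup.1 (ih _ _ e1 a)
        refine add_mem ?_ (mem_sup_right (span_mono ?_ hs))
        · rw [restrictScalars_mem, J_step x (W := U) v18 (by simp [Nat.testBit_xor, vU])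
            (fun i hi => by simp [Nat.testBit_xor, Nat.testBit_two_pow, Ne.symm hi])] at hj
          obtain ⟨p, hp, j', hj', rfl⟩ := mem_sup.1 hj
          obtain ⟨c, rfl⟩ := Ideal.mem_span_singleton'.1 hp
          refine add_mem ?_ (mem_sup_left hj')
          obtain ⟨j2, hj2, s2, hs2, rfl⟩ := mem_sup.1 (ih _ _ e2 c)
          rw [add_mul]
          refine add_mem (mem_sup_left (J_nb h v18 hj2)) (mem_sup_right ?_)
          refine Submodule.span_induction (p := fun s _ => s * x v ∈ span ℚ (mon x ''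
            {m | m ∈ l1 ++ r1.map (v :: ·)})) ?_ ?_ ?_ ?_ hs2
          · rintro _ ⟨m, hm, rfl⟩
            refine subset_span ⟨v :: m, ?_, by simp [mon, mul_comm]⟩
            exact List.mem_append_right _ (List.mem_map_of_mem hm)
          · simp
          · intro a b _ _ ha hb; rw [add_mul]; exact add_mem ha hb
          · intro c a _ ha; rw [smul_mul_assoc]; exact smul_mem _ _ ha
        · exact Set.image_mono fun m hm => List.mem_append_left _ hm
      · simp at e

open Module in
lemma mons_le [Module.Finite ℚ A] {x : ℕ → A} (h : Rel x) {f U : ℕ} {l : List (List ℕ)}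
    (e : mons f U = some l) : finrank ℚ A ≤ finrank ℚ ((J x U).restrictScalars ℚ) + l.length := by
  classical
  have t : (J x U).restrictScalars ℚ ⊔ span ℚ (mon x '' {m | m ∈ l}) = ⊤ :=
    eq_top_iff.2 fun a _ => mons_span h f U l e a
  have h1 := finrank_add_le_finrank_add_finrank ((J x U).restrictScalars ℚ)
    (span ℚ (mon x '' {m | m ∈ l}))
  rw [t, finrank_top] at h1
  have h2 : (mon x '' {m | m ∈ l}) = ((l.map (mon x)).toFinset : Set A) := by
    ext a; simp
  have h3 := finrank_span_finset_le_card (R := ℚ) (l.map (mon x)).toFinset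
  rw [Set.finrank, ← h2] at h3
  have h4 := List.toFinset_card_le (l.map (mon x))
  rw [List.length_map] at h4
  omega

open Module in
lemma dim_step [Module.Finite ℚ A] (I : Ideal A) (y : A) :
    ∃ C : Submodule ℚ A, (∀ a, a ∈ C ↔ a * y ∈ I) ∧
      finrank ℚ ((Ideal.span {y} ⊔ I).restrictScalars ℚ) + finrank ℚ C =
        finrank ℚ (I.restrictScalars ℚ) + finrank ℚ A := by
  let ψ : A →ₗ[ℚ] A ⧸ I.restrictScalars ℚ := (I.restrictScalars ℚ).mkQ ∘ₗ LinearMap.mulRight ℚ y
  refine ⟨LinearMap.ker ψ, fun a => by simp [ψ], ?_⟩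
  have h1 := LinearMap.finrank_range_add_finrank_ker ψ
  have h2 := LinearMap.finrank_range_add_finrank_ker
    ((I.restrictScalars ℚ).mkQ.domRestrict ((Ideal.span {y} ⊔ I).restrictScalars ℚ))
  have h3 : LinearMap.range ((I.restrictScalars ℚ).mkQ.domRestrict
      ((Ideal.span {y} ⊔ I).restrictScalars ℚ)) = LinearMap.range ψ := by
    ext q
    constructor
    · rintro ⟨⟨a, ha⟩, rfl⟩
      obtain ⟨p, hp, j, hj, rfl⟩ := mem_sup.1 ((restrictScalars_mem _ _ _).1 ha)
      obtain ⟨c, rfl⟩ := Ideal.mem_span_singleton'.1 hp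
      refine ⟨c, ?_⟩
      simp only [ψ, LinearMap.comp_apply, LinearMap.mulRight_apply, LinearMap.domRestrict_apply,
        mkQ_apply]
      rw [Submodule.Quotient.eq]
      simpa using hj
    · rintro ⟨c, rfl⟩
      exact ⟨⟨c * y, Ideal.mem_sup_left (Ideal.mem_span_singleton'.2 ⟨c, rfl⟩)⟩, rfl⟩
  have h4 : finrank ℚ (LinearMap.ker ((I.restrictScalars ℚ).mkQ.domRestrict
      ((Ideal.span {y} ⊔ I).restrictScalars ℚ))) = finrank ℚ (I.restrictScalars ℚ) := by
    rw [LinearMap.ker_domRestrict, ker_mkQ]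
    have le : I.restrictScalars ℚ ≤ (Ideal.span {y} ⊔ I).restrictScalars ℚ :=
      fun a ha => Ideal.mem_sup_right ha
    exact (comapSubtypeEquivOfLe le).finrank_eq
  rw [h3, h4] at h2
  omega

def cnt (U : ℕ) : Option ℕ := (mons 19 U).map List.length

def tb : List (ℕ × ℕ) := [(262143, 161), (196607, 129), (261631, 103), (261630, 74), (195583, 87), (257534, 58), (245246,
  54), (195567, 58), (195519, 58), (212478, 44), (195007, 29), (195503, 29), (191998, 42), (195566,
  29), (210430, 36), (212350, 28), (191742, 30), (202238, 32), (191710, 20), (191738, 20), (208254,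
  20), (201214, 16), (201982, 16), (158942, 10), (202110, 16), (198142, 16), (191706, 10), (202230,
  16), (202236, 16), (175354, 10), (142718, 12), (206206, 12), (201086, 8), (206204, 8), (142710,
  8), (201974, 8), (198014, 8), (202102, 8), (198012, 4), (140668, 4), (201078, 4), (198006, 4),
  (197942, 2), (197990, 2), (197986, 1), (197958, 1)]

def cn (U : ℕ) : ℕ := (tb.lookup U).getD 0

def chk (all : List ℕ) : List ℕ → List (ℕ × ℕ) → Bool
  | _, [] => true
  | seen, (U, v) :: rest =>
    decide (v < 18) && !U.testBit v && decide ((U ||| 2 ^ v) ∈ seen) &&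
    decide ((nb v &&& (U ||| 2 ^ v)) ∈ all) &&
    decide (U ∈ all ∧ cn (U ||| 2 ^ v) = cn U + cn (nb v &&& (U ||| 2 ^ v))) &&
    chk all (U :: seen) rest

open Module in
def PP (x : ℕ → A) (L : Set A) (all : List ℕ) (W : ℕ) : Prop :=
  finrank ℚ ((J x W).restrictScalars ℚ) + cn W ≤ finrank ℚ A ∧
  ∃ (r : ℕ) (y : Fin r → A), (∀ j, y j ∈ L) ∧ LQ (J x '' {U | U ∈ all}) r y ∧
    span A (Set.range y) = J x W

lemma chk_ok [Module.Finite ℚ A] {x : ℕ → A} (h : Rel x) (L : Set A) (hL : ∀ i, x i ∈ L) (all : List ℕ)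
    (hcn : ∀ U ∈ all, cnt U = some (cn U)) :
    ∀ (rest : List (ℕ × ℕ)) (seen : List ℕ), (∀ W ∈ seen, PP x L all W) → chk all seen rest = true →
      ∀ e ∈ rest, PP x L all e.1
  | [], _, _, _ => by simp
  | (U, v) :: rest, seen, hs, hc => by
    simp only [chk, Bool.and_eq_true, decide_eq_true_eq, Bool.not_eq_true'] at hc
    obtain ⟨⟨⟨⟨⟨v18, vU⟩, hW⟩, hS⟩, hU, abc⟩, hr⟩ := hc
    have P : PP x L all U := by
      obtain ⟨q1, r, y, y1, y2, y3⟩ := hs _ hW
      have e := J_step x (W := U ||| 2 ^ v) v18 vU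
        (fun i hi => by simp [Nat.testBit_or, Nat.testBit_two_pow, Ne.symm hi])
      obtain ⟨C, c1, c2⟩ := dim_step (J x (U ||| 2 ^ v)) (x v)
      rw [← e] at c2
      obtain ⟨l1, e1, f1⟩ := Option.map_eq_some_iff.1 (hcn _ hU)
      obtain ⟨l2, e2, f2⟩ := Option.map_eq_some_iff.1 (hcn _ hS)
      have q2 := mons_le h e1
      have q3 := mons_le h e2
      have le : (J x (nb v &&& (U ||| 2 ^ v))).restrictScalars ℚ ≤ C :=
        fun a ha => (c1 a).2 (J_nb h v18 ha)
      have q4 := Submodule.finrank_mono le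
      have eq := Submodule.eq_of_le_of_finrank_le le (by omega)
      refine ⟨by omega, r + 1, Fin.cons (x v) y, fun j => ?_,
        ⟨by simpa using y2, _, ⟨_, hS, rfl⟩, fun a => ?_⟩, ?_⟩
      · exact Fin.cases (hL v) y1 j
      · rw [Fin.tail_cons, Fin.cons_zero, y3, smul_eq_mul, ← c1, ← eq]; rfl
      · rw [Fin.range_cons, span_insert, y3, e]
    intro e he
    rcases List.mem_cons.1 he with rfl | he
    · exact P
    · refine chk_ok h L hL all hcn rest (U :: seen) (fun W hW => ?_) hr e he
      rcases List.mem_cons.1 hW with rfl | hW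
      · exact P
      · exact hs W hW

def fam : List (ℕ × ℕ) := [(196607,16),(261631,9),(261630,0),(195583,10),(257534,12),(245246,14),
  (195567,4),(195519,6),(212478,15),(195007,9),(195503,4),(191998,16),(195566,0),(210430,11),(212350,7),
  (191742,8),(202238,13),(191710,5),(191738,2),(208254,12),(201214,10),(201982,8),(158942,15),(202110,7),
  (198142,12),(191706,2),(202230,3),(202236,1),(175354,14),(142718,16),(206206,11),(201086,10),
  (206204,1),(142710,3),(201974,8),(198014,13),(202102,7),(198012,13),(140668,16),(201078,10),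
  (198006,12),(197942,6),(197990,4),(197986,2),(197958,5)]

lemma chk_fam : chk (262143 :: fam.map Prod.fst) [262143] fam = true := by decide +kernel

lemma cnt_all : ∀ U ∈ 262143 :: fam.map Prod.fst, cnt U = some (cn U) := by decide +kernel

omit [Algebra ℚ A] in
lemma J_top (x : ℕ → A) : J x 262143 = ⊥ := by
  have : {i | i < 18 ∧ (262143 : ℕ).testBit i = false} = ∅ := by
    ext i
    simp only [Set.mem_setOf_eq, Set.mem_empty_iff_false, iff_false, not_and]
    intro hi
    interval_cases i <;> decide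
  rw [J, this]; simp

theorem koszul_rel [Module.Finite ℚ A] {x : ℕ → A} (h : Rel x) (hd : 161 ≤ Module.finrank ℚ A)
    (L : Submodule ℚ A) (hL : ∀ i, x i ∈ L) (hL' : (L : Set A) ⊆ J x 0)
    (π : A → A) (hπ : ∀ a, π a ∈ L)
    (hG : ∀ (k : ℕ) (v : Fin k → A) (u x : A) (a : Fin k → A), x ∈ L → u ∈ L → (∀ l, v l ∈ L) →
      x * u = ∑ l, a l * v l → x * u = ∑ l, π (a l) * v l) : Koszul A L := by
  have top : PP x L (262143 :: fam.map Prod.fst) 262143 := by
    refine ⟨?_, 0, Fin.elim0, fun j => j.elim0, trivial, by simp [J_top]⟩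
    rw [J_top, restrictScalars_bot, finrank_bot, zero_add]; exact hd
  have all := chk_ok h L hL _ cnt_all fam [262143] (by simpa using top) chk_fam
  refine koszul_of (J x '' {U | U ∈ 262143 :: fam.map Prod.fst}) L L.zero_mem (fun a ha => L.neg_mem ha)
    ?_ ⟨197958, by decide, ?_⟩ π hπ hG
  · rintro _ ⟨U, hU, rfl⟩
    rcases List.mem_cons.1 hU with rfl | hU
    · exact top.2
    · obtain ⟨e, he, rfl⟩ := List.mem_map.1 hU
      exact (all e he).2
  · apply le_antisymm
    · rw [J, Ideal.span_le]
      rintro _ ⟨i, _, rfl⟩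
      exact Ideal.subset_span (hL i)
    · rw [Ideal.span_le]
      exact fun a ha => leaf_le h (by decide +kernel) (hL' ha)

end Pool.Agent.H.MP_0b1547_co
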