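import Mathlib
import Pool.Agent.H.MP_0b1547_co.C

set_option autoImplicit false

namespace Pool.Agent.H.MP_0b1547_co

open MvPolynomial

def M0 : Matroid (Fin 7) := Matroid.freeOn Set.univ

def g (i : Fin 18) : Set (Fin 7) := {a | (gm i).testBit a = true}

def G0 : Set (Set (Fin 7)) := Set.range g

lemma cl (X : Set (Fin 7)) : M0.closure X = X := by simp [M0]

lemma fl (X : Set (Fin 7)) : M0.IsFlat X := Matroid.isFlat_iff_closure_eq.2 (cl X)

lemma g_inj : Function.Injective g := by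
  intro i j e
  refine G4 i j fun a => ?_
  have := Set.ext_iff.1 e a
  simp only [g, Set.mem_setOf_eq] at this
  exact Bool.eq_iff_iff.2 this

noncomputable def eq18 : Fin 18 ≃ G0 := Equiv.ofInjective g g_inj

lemma sing (t : Fin 7) : ({t} : Set (Fin 7)) ∈ G0 := by
  obtain ⟨k, hk⟩ := G5 t
  exact ⟨k, Set.ext fun a => hk a⟩

lemma union_mem {Y Z : Set (Fin 7)} (hY : Y ∈ G0) (hZ : Z ∈ G0) {a : Fin 7} (h1 : a ∈ Y) (h2 : a ∈ Z) :
    Y ∪ Z ∈ G0 := by
  obtain ⟨i, rfl⟩ := hY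
  obtain ⟨j, rfl⟩ := hZ
  obtain ⟨k, hk⟩ := G3 i j ⟨a, h1, h2⟩
  exact ⟨k, Set.ext fun a => by simp [g, hk]⟩

lemma building : IsBuilding M0 G0 := by
  refine ⟨?_, fun F _ _ => ?_⟩
  · rintro _ ⟨i, rfl⟩
    obtain ⟨a, ha⟩ := G6 i
    exact ⟨fl _, Set.Nonempty.ne_empty ⟨a, ha⟩⟩
  · have dis : ∀ Y Z : {Y // Maximal (fun Z => Z ∈ G0 ∧ Z ⊆ F) Y}, ∀ a, a ∈ Y.1 → a ∈ Z.1 → Y = Z := by
      intro Y Z a h1 h2
      have u : Y.1 ∪ Z.1 ∈ G0 ∧ Y.1 ∪ Z.1 ⊆ F :=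
        ⟨union_mem Y.2.1.1 Z.2.1.1 h1 h2, Set.union_subset Y.2.1.2 Z.2.1.2⟩
      have e1 := Y.2.2 u Set.subset_union_left
      have e2 := Z.2.2 u Set.subset_union_right
      exact Subtype.ext (Set.Subset.antisymm (Set.subset_union_left.trans e2)
        (Set.subset_union_right.trans e1))
    have cov : ∀ a ∈ F, ∃ Y : {Y // Maximal (fun Z => Z ∈ G0 ∧ Z ⊆ F) Y}, a ∈ Y.1 := by
      intro a ha
      obtain ⟨Y, h1, h2⟩ := Finite.exists_le_maximal (p := fun Z => Z ∈ G0 ∧ Z ⊆ F)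
        (a := ({a} : Set (Fin 7))) ⟨sing a, by simpa using ha⟩
      exact ⟨⟨Y, h2⟩, h1 rfl⟩
    refine ⟨{ toFun := fun H => ⟨⋃ Y, (H Y).1, fl _, Set.iUnion_subset fun Y => (H Y).2.2.trans Y.2.1.2⟩
              invFun := fun K Y => ⟨K.1 ∩ Y.1, fl _, Set.inter_subset_right⟩
              left_inv := fun H => ?_
              right_inv := fun K => ?_
              map_rel_iff' := fun {H H'} => ?_ }, fun H => (cl _).symm⟩
    · funext Y
      refine Subtype.ext (Set.ext fun a => ⟨?_, fun h => ⟨Set.mem_iUnion.2 ⟨Y, h⟩, (H Y).2.2 h⟩⟩)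
      rintro ⟨h1, h2⟩
      obtain ⟨Z, hZ⟩ := Set.mem_iUnion.1 h1
      obtain rfl := dis Y Z a h2 ((H Z).2.2 hZ)
      exact hZ
    · refine Subtype.ext (Set.ext fun a => ⟨fun h => ?_, fun h => ?_⟩)
      · obtain ⟨Z, hZ⟩ := Set.mem_iUnion.1 h
        exact hZ.1
      · obtain ⟨Y, hY⟩ := cov a (K.2.2 h)
        exact Set.mem_iUnion.2 ⟨Y, h, hY⟩
    · constructor
      · intro h Y a ha
        obtain ⟨Z, hZ⟩ := Set.mem_iUnion.1 (h (Set.mem_iUnion.2 ⟨Y, ha⟩))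
        obtain rfl := dis Y Z a ((H Y).2.2 ha) ((H' Z).2.2 hZ)
        exact hZ
      · intro h
        exact Set.iUnion_mono fun Y => h Y

lemma atom_iff (a : Set (Fin 7)) : Minimal (fun F => M0.IsFlat F ∧ F ≠ ∅) a ↔ ∃ t, a = {t} := by
  constructor
  · intro h
    obtain ⟨t, ht⟩ := Set.nonempty_iff_ne_empty.2 h.1.2
    have s : ({t} : Set (Fin 7)) ⊆ a := by simpa using ht
    exact ⟨t, Set.Subset.antisymm (h.2 ⟨fl _, by simp⟩ s) s⟩
  · rintro ⟨t, rfl⟩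
    refine ⟨⟨fl _, by simp⟩, fun y hy h => ?_⟩
    obtain ⟨u, hu⟩ := Set.nonempty_iff_ne_empty.2 hy.2
    obtain rfl : u = t := h hu
    simpa using hu

abbrev P := MvPolynomial G0 ℚ

noncomputable def th (t : Fin 7) : P := ∑ i : Fin 18, if (gm i).testBit t then X (eq18 i) else 0

open Classical in
lemma th_eq (t : Fin 7) : (∑ Y : G0 with {t} ⊆ Y.1, X Y : P) = th t := by
  rw [Finset.sum_filter, th]
  refine (Fintype.sum_equiv eq18 _ _ fun i => ?_).symm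
  have : ({t} : Set (Fin 7)) ⊆ (eq18 i).1 ↔ (gm i).testBit t = true := by
    rw [Set.singleton_subset_iff]; rfl
  simp only [this]

lemma rels_iff (p : P) : p ∈ rels M0 G0 ↔
    (∃ S : Finset G0, ¬ Nested M0 G0 S ∧ p = ∏ Y ∈ S, X Y) ∨ ∃ t, p = th t := by
  refine or_congr Iff.rfl ⟨?_, ?_⟩
  · rintro ⟨a, ha, rfl⟩
    obtain ⟨t, rfl⟩ := (atom_iff a).1 ha
    exact ⟨t, th_eq t⟩
  · rintro ⟨t, rfl⟩
    exact ⟨{t}, (atom_iff _).2 ⟨t, rfl⟩, (th_eq t).symm⟩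

noncomputable def xP (i : ℕ) : P := if h : i < 18 then X (eq18 ⟨i, h⟩) else 0

lemma xP_fin (i : Fin 18) : xP i = X (eq18 i) := dif_pos i.2

lemma xP_hom (i : ℕ) : (xP i).IsHomogeneous 1 := by
  unfold xP; split_ifs
  · exact isHomogeneous_X _ _
  · exact isHomogeneous_zero _ _ _

lemma th_hom (t : Fin 7) : (th t).IsHomogeneous 1 :=
  IsHomogeneous.sum _ _ _ fun i _ => by
    split_ifs
    · exact isHomogeneous_X _ _
    · exact isHomogeneous_zero _ _ _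

lemma prod_hom (S : Finset G0) : (∏ Y ∈ S, X Y : P).IsHomogeneous S.card := by
  have := IsHomogeneous.prod S (fun Y => (X Y : P)) (fun _ => 1) fun Y _ => isHomogeneous_X _ _
  simpa using this

noncomputable abbrev II : Ideal P := Ideal.span (rels M0 G0)

noncomputable abbrev mk : P →ₐ[ℚ] Chow M0 G0 := Ideal.Quotient.mkₐ ℚ II

noncomputable def xA (i : ℕ) : Chow M0 G0 := mk (xP i)

lemma mk_zero {p : P} (h : p ∈ rels M0 G0) : mk p = 0 :=
  Ideal.Quotient.eq_zero_iff_mem.2 (Ideal.subset_span h)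

lemma mk_X (Y : G0) : mk (X Y) ∈ J xA 0 := by
  obtain ⟨i, rfl⟩ := eq18.surjective Y
  rw [← xP_fin]
  exact J_mem xA i.2 (by simp)

lemma rel : Rel xA := by
  classical
  refine ⟨fun i hi j hj h => ?_, fun a ha => ?_, fun a => ?_⟩
  · obtain ⟨⟨a, a1, a2⟩, ⟨b, b1, b2⟩, k, hk⟩ := G2 ⟨i, hi⟩ ⟨j, hj⟩ h
    have n1 : ¬ eq18 ⟨i, hi⟩ ≤ eq18 ⟨j, hj⟩ := fun c => by
      have : (gm j).testBit a = true := c (show a ∈ g ⟨i, hi⟩ from a1)
      simp_all
    have n2 : ¬ eq18 ⟨j, hj⟩ ≤ eq18 ⟨i, hi⟩ := fun c => by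
      have : (gm i).testBit b = true := c (show b ∈ g ⟨j, hj⟩ from b1)
      simp_all
    have ne : eq18 ⟨i, hi⟩ ≠ eq18 ⟨j, hj⟩ := fun c => n1 c.le
    rw [xA, xA, ← map_mul]
    refine mk_zero ((rels_iff _).2 (Or.inl ⟨{eq18 ⟨i, hi⟩, eq18 ⟨j, hj⟩}, fun hn => ?_, ?_⟩))
    · refine hn _ subset_rfl (by rw [Finset.card_pair ne]) ?_ ⟨k, ?_⟩
      · intro u hu v hv huv
        simp only [Finset.coe_insert, Finset.coe_singleton, Set.mem_insert_iff,
          Set.mem_singleton_iff] at hu hv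
        rcases hu with rfl | rfl <;> rcases hv with rfl | rfl
        · exact absurd rfl huv
        · exact n1
        · exact n2
        · exact absurd rfl huv
      · rw [cl, Finset.set_biUnion_insert, Finset.set_biUnion_singleton]
        ext c
        have := hk c
        simp only [g, Set.mem_setOf_eq, this, Bool.or_eq_true]
        rfl
    · rw [Finset.prod_pair ne, ← xP_fin, ← xP_fin]
  · have := mk_zero ((rels_iff _).2 (Or.inr ⟨⟨a, ha⟩, rfl⟩))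
    rw [← this, Finset.sum_filter, Finset.sum_range, th, map_sum]
    refine Finset.sum_congr rfl fun i _ => ?_
    rw [G1 ⟨a, ha⟩ i]
    split_ifs
    · rw [xA, xP_fin]
    · simp
  · obtain ⟨p, rfl⟩ := Ideal.Quotient.mkₐ_surjective ℚ II a
    induction p using MvPolynomial.induction_on with
    | C c => exact ⟨c, by rw [← algebraMap_eq, AlgHom.commutes, Algebra.algebraMap_eq_smul_one]; simp⟩
    | add p q hp hq =>
      obtain ⟨c, hc⟩ := hp
      obtain ⟨d, hd⟩ := hq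
      refine ⟨c + d, ?_⟩
      have := add_mem hc hd
      rw [map_add, add_smul]
      convert this using 1
      abel
    | mul_X p Y _ => exact ⟨0, by
        rw [map_mul, zero_smul, sub_zero]; exact Ideal.mul_mem_left _ _ (mk_X Y)⟩

/-- Evaluation at an integral point. -/
noncomputable def ev (l : List ℤ) : P →ₐ[ℚ] ℚ := aeval fun Y => ((l.getD (eq18.symm Y) 0 : ℤ) : ℚ)

lemma ev_X (l : List ℤ) (i : Fin 18) : ev l (X (eq18 i)) = ((l.getD i 0 : ℤ) : ℚ) := by simp [ev]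

lemma ev_th {l : List ℤ} (hl : l ∈ W) (t : Fin 7) : ev l (th t) = (t : ℕ) + 1 := by
  have := congrArg (fun z : ℤ => (z : ℚ)) (W1 l hl t)
  push_cast at this
  rw [← this, th, map_sum]
  refine Finset.sum_congr rfl fun i _ => ?_
  split_ifs
  · exact ev_X l i
  · simp

lemma ev_prod {l : List ℤ} (hl : l ∈ W) {S : Finset G0} (hS : ¬ Nested M0 G0 S) :
    ev l (∏ Y ∈ S, X Y) = 0 := by
  by_contra hc
  apply hS
  rintro T hT h2 ha ⟨k, hk⟩
  rw [cl] at hk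
  obtain ⟨a, a1, a2⟩ := W2 l hl k
  have : a ∈ ⋃ Y ∈ T, Y.1 := hk ▸ a1
  simp only [Set.mem_iUnion] at this
  obtain ⟨Y, hY, aY⟩ := this
  obtain ⟨i, rfl⟩ := eq18.surjective Y
  have sub : ∀ Z ∈ T, Z.1 ⊆ g k := fun Z hZ => hk ▸ Set.subset_biUnion_of_mem (u := fun Y : G0 => Y.1) hZ
  rw [map_prod] at hc
  have nz := Finset.prod_ne_zero_iff.1 hc _ (hT hY)
  rw [ev_X] at nz
  obtain ⟨b, b1, b2⟩ := a2 i (by exact_mod_cast nz) aY (by
    rintro rfl
    obtain ⟨Z, hZ, ne⟩ := Finset.exists_mem_ne h2 (eq18 i)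
    exact ha hZ hY ne (sub Z hZ))
  have : (gm k).testBit b = true := sub _ hY (show b ∈ g i from b1)
  simp_all

end Pool.Agent.H.MP_0b1547_co
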