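import Mathlib
import Pool.Agent.H.MP_0b1547_co.D

set_option autoImplicit false

namespace Pool.Agent.H.MP_0b1547_co

open MvPolynomial Submodule Module

attribute [local instance] MvPolynomial.gradedAlgebra

noncomputable def hc (n : ℕ) : P →ₗ[ℚ] P := GradedAlgebra.proj (homogeneousSubmodule G0 ℚ) n

lemma hc_hom (n : ℕ) (p : P) : (hc n p).IsHomogeneous n :=
  (DirectSum.decompose (homogeneousSubmodule G0 ℚ) p n).2

lemma hc_mul (n : ℕ) (q : P) {r : P} {s : ℕ} (h : r.IsHomogeneous s) :
    hc n (q * r) = if s ≤ n then hc (n - s) q * r else 0 :=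
  DirectSum.coe_decompose_mul_of_right_mem (homogeneousSubmodule G0 ℚ) n h

lemma hc_same {n : ℕ} {p : P} (h : p.IsHomogeneous n) : hc n p = p :=
  DirectSum.decompose_of_mem_same (homogeneousSubmodule G0 ℚ) h

lemma hc_ne {n m : ℕ} {p : P} (h : p.IsHomogeneous m) (ne : m ≠ n) : hc n p = 0 :=
  DirectSum.decompose_of_mem_ne (homogeneousSubmodule G0 ℚ) h ne

lemma hc_II (n : ℕ) {p : P} (h : p ∈ II) : hc n p ∈ II := by
  refine Ideal.homogeneous_span (homogeneousSubmodule G0 ℚ) _ (fun x hx => ?_) n h
  rcases (rels_iff x).1 hx with ⟨S, _, rfl⟩ | ⟨t, rfl⟩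
  · exact ⟨_, prod_hom S⟩
  · exact ⟨_, th_hom t⟩

lemma mk_eq {p q : P} : mk p = mk q ↔ p - q ∈ II := Ideal.Quotient.eq

lemma mk_hc (n : ℕ) {p q : P} (h : mk p = mk q) : mk (hc n p) = mk (hc n q) := by
  rw [mk_eq, ← map_sub]; exact hc_II n (mk_eq.1 h)

lemma mem_piece {n : ℕ} {a : Chow M0 G0} : a ∈ piece M0 G0 n ↔ ∃ p : P, p.IsHomogeneous n ∧ mk p = a :=
  Iff.rfl

lemma mon_hom (m : List ℕ) : (mon xP m).IsHomogeneous m.length := by
  induction m with
  | nil => exact isHomogeneous_one _ _
  | cons a m ih =>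
    have := (xP_hom a).mul ih
    rw [add_comm] at this
    simpa [mon] using this

lemma mk_mon (m : List ℕ) : mk (mon xP m) = mon xA m := by
  simp only [mon, map_list_prod, List.map_map]; rfl

/-- Evaluation at all points. -/
noncomputable def evs : P →ₗ[ℚ] (Fin W.length → ℚ) :=
  LinearMap.pi fun j => (ev (W.get j)).toLinearMap

lemma evs_apply (p : P) (j : Fin W.length) : evs p j = ev (W.get j) p := rfl

lemma evs_span (K : Set (List ℕ)) (hK : span ℚ (mon xA '' K) = ⊤) (p : P) :
    evs p ∈ span ℚ ((fun m => evs (mon xP m)) '' K) := by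
  set S := span ℚ ((fun m => evs (mon xP m)) '' K)
  have key : ∀ n, ∀ p, evs (hc n p) ∈ S := by
    intro n
    induction n using Nat.strong_induction_on with
    | _ n ih =>
      have hI : ∀ r ∈ II, ∀ q, evs (hc n (q * r)) ∈ S := by
        intro r hr
        refine Submodule.span_induction (p := fun r _ => ∀ q, evs (hc n (q * r)) ∈ S) ?_ ?_ ?_ ?_ hr
        · intro r hr q
          rcases (rels_iff r).1 hr with ⟨T, hT, rfl⟩ | ⟨t, rfl⟩
          · rw [hc_mul n q (prod_hom T)]
            split_ifs
            · have : evs (hc (n - T.card) q * ∏ Y ∈ T, X Y) = 0 := by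
                funext j
                rw [evs_apply, map_mul, ev_prod (List.get_mem _ _) hT, mul_zero]; rfl
              rw [this]; exact zero_mem _
            · simp
          · rw [hc_mul n q (th_hom t)]
            split_ifs with h
            · have : evs (hc (n - 1) q * th t) = (((t : ℕ) : ℚ) + 1) • evs (hc (n - 1) q) := by
                funext j
                rw [evs_apply, map_mul, ev_th (List.get_mem _ _), Pi.smul_apply, evs_apply, smul_eq_mul,
                  mul_comm]
              rw [this]; exact smul_mem _ _ (ih _ (by omega) _)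
            · simp
        · intro q; simp
        · intro a b _ _ ha hb q
          rw [mul_add, map_add, map_add]; exact add_mem (ha q) (hb q)
        · intro c a _ ha q
          rw [smul_eq_mul, ← mul_assoc]; exact ha _
      have h2 : ∀ a ∈ span ℚ (mon xA '' K), ∃ q : P, mk q = a ∧ evs (hc n q) ∈ S := by
        intro a ha
        refine Submodule.span_induction (p := fun a _ => ∃ q : P, mk q = a ∧ evs (hc n q) ∈ S)
          ?_ ?_ ?_ ?_ ha
        · rintro _ ⟨m, hm, rfl⟩
          refine ⟨_, mk_mon m, ?_⟩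
          by_cases e : m.length = n
          · rw [hc_same (e ▸ mon_hom m)]; exact subset_span ⟨m, hm, rfl⟩
          · rw [hc_ne (mon_hom m) e]; simp
        · exact ⟨0, by simp, by simp⟩
        · rintro _ _ _ _ ⟨p, rfl, hp⟩ ⟨q, rfl, hq⟩
          exact ⟨p + q, map_add _ _ _, by rw [map_add, map_add]; exact add_mem hp hq⟩
        · rintro c _ _ ⟨p, rfl, hp⟩
          exact ⟨c • p, map_smul _ _ _, by rw [map_smul, map_smul]; exact smul_mem _ _ hp⟩
      intro p
      obtain ⟨q, e, hq⟩ := h2 (mk p) (hK ▸ mem_top)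
      have := hI _ (mk_eq.1 e.symm) 1
      rw [one_mul, map_sub, map_sub] at this
      simpa using add_mem this hq
  classical
  rw [← DirectSum.sum_support_decompose (homogeneousSubmodule G0 ℚ) p, map_sum]
  exact sum_mem fun n _ => key n p

lemma evs_surj (S : Submodule ℚ (Fin W.length → ℚ)) (h : ∀ p, evs p ∈ S) : S = ⊤ := by
  classical
  rw [eq_top_iff, ← (Pi.basisFun ℚ (Fin W.length)).span_eq, span_le]
  rintro _ ⟨j, rfl⟩
  set p : P := ∏ i ∈ Finset.univ.filter (fun i : Fin 18 => (W.get j).getD i.1 0 ≠ 0), X (eq18 i) with hp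
  have nz : evs p j ≠ 0 := by
    rw [evs_apply, hp, map_prod]
    refine Finset.prod_ne_zero_iff.2 fun i hi => ?_
    rw [ev_X]; exact_mod_cast (Finset.mem_filter.1 hi).2
  have e : Pi.basisFun ℚ (Fin W.length) j = (evs p j)⁻¹ • evs p := by
    funext k
    by_cases c : k = j
    · subst c; simp [inv_mul_cancel₀ nz]
    · obtain ⟨i, i1, i2⟩ := W3 j k (Ne.symm c)
      have : evs p k = 0 := by
        rw [evs_apply, hp, map_prod]
        refine Finset.prod_eq_zero (i := i) (Finset.mem_filter.2 ⟨Finset.mem_univ _, i1⟩) ?_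
        rw [ev_X, i2]; simp
      simp [this, c]
  rw [e]
  exact smul_mem _ _ (h p)

lemma card_ge (K : Finset (List ℕ)) (hK : span ℚ (mon xA '' K) = ⊤) : 161 ≤ K.card := by
  classical
  have h1 := evs_surj _ (evs_span K hK)
  have h2 := finrank_span_finset_le_card (R := ℚ) (K.image fun m => evs (mon xP m))
  rw [Set.finrank, Finset.coe_image, h1, finrank_top, finrank_fin_fun] at h2
  exact W_len.ge.trans (h2.trans Finset.card_image_le)

lemma span_top {l : List (List ℕ)} (e : mons 19 262143 = some l) :
    span ℚ (mon xA '' {m | m ∈ l}) = ⊤ := by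
  have := mons_span rel 19 _ l e
  rw [J_top, restrictScalars_bot, bot_sup_eq] at this
  exact eq_top_iff.2 fun a _ => this a

instance : Module.Finite ℚ (Chow M0 G0) := by
  obtain ⟨l, e, _⟩ := top_mons
  exact ⟨Submodule.fg_def.2 ⟨_, (List.finite_toSet l).image _, span_top e⟩⟩

lemma dim_ge : 161 ≤ finrank ℚ (Chow M0 G0) := by
  classical
  obtain ⟨l, e, _⟩ := top_mons
  obtain ⟨s, s1, s2, s3⟩ := exists_linearIndepOn_extension (K := ℚ) (v := mon xA)
    (s := ∅) (t := {m | m ∈ l}) (linearIndepOn_empty _ _) (Set.empty_subset _)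
  have fin : s.Finite := (List.finite_toSet l).subset s1
  have h0 := card_ge fin.toFinset (by
    rw [Set.Finite.coe_toFinset, eq_top_iff, ← span_top e, span_le]
    exact s3.1)
  haveI := fin.fintype
  have h2 := LinearIndependent.fintype_card_le_finrank s3.2
  rw [Set.Finite.card_toFinset] at h0
  omega

lemma koszul : Koszul (Chow M0 G0) (piece M0 G0 1) := by
  choose out hout using Ideal.Quotient.mkₐ_surjective ℚ II
  refine koszul_rel rel dim_ge _ (fun i => ⟨_, xP_hom i, rfl⟩) ?_ (fun a => mk (hc 1 (out a)))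
    (fun a => ⟨_, hc_hom _ _, rfl⟩) ?_
  · rintro _ ⟨p, hp, rfl⟩
    obtain ⟨c, hc'⟩ := rel.r3 (mk p)
    have h1 : homogeneousSubmodule G0 ℚ 1 ≤ span ℚ (Set.range X) :=
      (homogeneousSubmodule_one_eq_span_X (R := ℚ) (σ := G0)).le
    refine Submodule.span_induction (p := fun p _ => mk p ∈ J xA 0) ?_ ?_ ?_ ?_ (h1 hp)
    · rintro _ ⟨Y, rfl⟩; exact mk_X Y
    · simp
    · intro a b _ _ ha hb; rw [map_add]; exact add_mem ha hb
    · intro c a _ ha; rw [map_smul]; exact ((J xA 0).restrictScalars ℚ).smul_mem c ha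
  · rintro k v _ _ a ⟨x, hx, rfl⟩ ⟨u, hu, rfl⟩ hv e
    choose w w1 w2 using fun l => mem_piece.1 (hv l)
    have e1 : mk (x * u) = mk (∑ l, out (a l) * w l) := by
      rw [map_mul, map_sum]
      simp only [map_mul, hout, w2]
      exact e
    have e2 := mk_hc 2 e1
    rw [hc_same (IsHomogeneous.mul hx hu), map_sum, map_sum, map_mul] at e2
    refine e2.trans (Finset.sum_congr rfl fun l _ => ?_)
    rw [hc_mul 2 _ (w1 l), if_pos (by norm_num), map_mul, w2]

lemma top_len : ∀ m ∈ (mons 19 262143).getD [], m.length < 7 := by decide +kernel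

lemma piece_rank (n : ℕ) : finrank ℚ (piece M0 G0 n) = [1, 11, 39, 59, 39, 11, 1].getD n 0 := by
  classical
  obtain ⟨l, e, len, cnts⟩ := top_mons
  have li : LinearIndependent ℚ (fun j : Fin l.length => mon xA (l.get j)) := by
    apply linearIndependent_of_top_le_span_of_card_le_finrank
    · rw [← span_top e]
      apply span_mono
      rintro _ ⟨m, hm, rfl⟩
      obtain ⟨j, rfl⟩ := List.get_of_mem hm
      exact ⟨j, rfl⟩
    · rw [Fintype.card_fin, len]; exact dim_ge
  have eq : piece M0 G0 n = span ℚ (Set.range fun j : {j : Fin l.length // (l.get j).length = n} =>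
      mon xA (l.get j.1)) := by
    apply le_antisymm
    · rintro _ ⟨p, hp, rfl⟩
      have : ∀ a ∈ span ℚ (mon xA '' {m | m ∈ l}), ∃ q : P, mk q = a ∧ mk (hc n q) ∈
          span ℚ (Set.range fun j : {j : Fin l.length // (l.get j).length = n} => mon xA (l.get j.1)) := by
        intro a ha
        refine Submodule.span_induction (p := fun a _ => ∃ q : P, mk q = a ∧ mk (hc n q) ∈
          span ℚ (Set.range fun j : {j : Fin l.length // (l.get j).length = n} => mon xA (l.get j.1)))
          ?_ ?_ ?_ ?_ ha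
        · rintro _ ⟨m, hm, rfl⟩
          refine ⟨_, mk_mon m, ?_⟩
          by_cases e : m.length = n
          · rw [hc_same (e ▸ mon_hom m), mk_mon]
            obtain ⟨j, rfl⟩ := List.get_of_mem hm
            exact subset_span ⟨⟨j, e⟩, rfl⟩
          · rw [hc_ne (mon_hom m) e]; simp
        · exact ⟨0, by simp, by simp⟩
        · rintro _ _ _ _ ⟨p, rfl, hp⟩ ⟨q, rfl, hq⟩
          exact ⟨p + q, map_add _ _ _, by rw [map_add, map_add]; exact add_mem hp hq⟩
        · rintro c _ _ ⟨p, rfl, hp⟩
          exact ⟨c • p, map_smul _ _ _, by rw [map_smul, map_smul]; exact smul_mem _ _ hp⟩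
      obtain ⟨q, e1, e2⟩ := this (mk p) (span_top e ▸ mem_top)
      rwa [mk_hc n e1, hc_same hp] at e2
    · rw [span_le]
      rintro _ ⟨j, rfl⟩
      have hj := mon_hom (l.get j.1)
      rw [j.2] at hj
      exact ⟨_, hj, mk_mon _⟩
  have li' : LinearIndependent ℚ (fun j : {j : Fin l.length // (l.get j).length = n} =>
      mon xA (l.get j.1)) := li.comp _ Subtype.val_injective
  rw [eq, finrank_span_eq_card li', Fintype.card_subtype]
  have c : (Finset.univ.filter fun j : Fin l.length => (l.get j).length = n).card =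
      l.countP (fun m => m.length == n) := by
    rw [Finset.card_filter]
    refine (Fin.sum_univ_fun_getElem l (fun m => if m.length = n then 1 else 0)).trans ?_
    clear eq li li' cnts len e
    induction l with
    | nil => simp
    | cons a l ih =>
      rw [List.map_cons, List.sum_cons, ih, List.countP_cons, add_comm]
      simp
  rw [c]
  by_cases h : n < 7
  · exact cnts n (List.mem_range.2 h)
  · have := top_len
    rw [e] at this
    rw [List.getD_eq_default _ _ (by simpa using h), List.countP_eq_zero]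
    intro m hm
    have := this m hm
    simp only [beq_iff_eq]
    omega

end Pool.Agent.H.MP_0b1547_co
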